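import Mathlib

open scoped ENNReal NNReal

namespace Pool.Agent.R190.Aug

/-- `ℓ^p` of the set `G`. -/
noncomputable abbrev LP (G : Type*) (p : ℝ≥0∞) := lp (fun _ : G => ℂ) p

section
variable {G : Type*} {p : ℝ≥0∞}

theorem mem_comp (hp : 0 < p.toReal) {f : G → ℂ} (hf : Memℓp f p) {c : G → G}
    (hc : Function.Injective c) : Memℓp (fun g => f (c g)) p := by
  rw [memℓp_gen_iff hp] at hf ⊢
  exact hf.comp_injective hc

theorem mem_mask (hp : 0 < p.toReal) {f : G → ℂ} (hf : Memℓp f p) (S : Set G) :
    Memℓp (S.indicator f) p := by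
  rw [memℓp_gen_iff hp] at hf ⊢
  refine Summable.of_nonneg_of_le (fun i => by positivity) (fun i => ?_) hf
  by_cases h : i ∈ S
  · rw [Set.indicator_of_mem h]
  · rw [Set.indicator_of_notMem h]
    simp [Real.zero_rpow hp.ne']
    positivity

variable [hp1 : Fact (1 ≤ p)]

/-- Composition with an injective map. -/
noncomputable def compL (hp : 0 < p.toReal) (c : G → G) (hc : Function.Injective c) :
    LP G p →L[ℂ] LP G p :=
  LinearMap.mkContinuous
    { toFun := fun f => ⟨fun g => f (c g), mem_comp hp (lp.memℓp f) hc⟩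
      map_add' := fun f g => by ext x; rfl
      map_smul' := fun a f => by ext x; rfl } 1 (by
        intro f
        rw [one_mul]
        refine lp.norm_le_of_tsum_le hp (norm_nonneg _) ?_
        rw [lp.norm_rpow_eq_tsum hp f]
        have h := tsum_comp_le_tsum_of_inj ((lp.memℓp f).summable hp) (fun a => by positivity) hc
        exact h)

@[simp] theorem compL_apply (hp : 0 < p.toReal) (c : G → G) (hc : Function.Injective c)
    (f : LP G p) (g : G) : compL hp c hc f g = f (c g) := rfl

theorem compL_norm (hp : 0 < p.toReal) (c : G → G) (hc : Function.Injective c) :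
    ‖compL (p := p) hp c hc‖ ≤ 1 := LinearMap.mkContinuous_norm_le _ zero_le_one _

/-- Restriction to a set. -/
noncomputable def maskL (hp : 0 < p.toReal) (S : Set G) : LP G p →L[ℂ] LP G p :=
  LinearMap.mkContinuous
    { toFun := fun f => ⟨S.indicator f, mem_mask hp (lp.memℓp f) S⟩
      map_add' := fun f g => by
        ext x
        exact congrFun (Set.indicator_add S (f : G → ℂ) (g : G → ℂ)) x
      map_smul' := fun a f => by
        ext x
        exact congrFun (Set.indicator_const_smul S a (f : G → ℂ)) x } 1 (by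
        intro f
        rw [one_mul]
        refine lp.norm_le_of_tsum_le hp (norm_nonneg _) ?_
        rw [lp.norm_rpow_eq_tsum hp f]
        refine Summable.tsum_le_tsum (fun i => ?_) ((mem_mask hp (lp.memℓp f) S).summable hp)
          ((lp.memℓp f).summable hp)
        change ‖S.indicator f i‖ ^ p.toReal ≤ _
        by_cases h : i ∈ S
        · rw [Set.indicator_of_mem h]
        · rw [Set.indicator_of_notMem h]
          simp [Real.zero_rpow hp.ne']
          positivity)

@[simp] theorem maskL_apply (hp : 0 < p.toReal) (S : Set G) (f : LP G p) (g : G) :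
    maskL hp S f g = S.indicator f g := rfl

theorem maskL_norm (hp : 0 < p.toReal) (S : Set G) :
    ‖maskL (p := p) hp S‖ ≤ 1 := LinearMap.mkContinuous_norm_le _ zero_le_one _

/-- Absolutely convergent sums of composition operators. -/
noncomputable def famL (hp : 0 < p.toReal) (x : G → ℂ) (c : G → G → G)
    (hc : ∀ h, Function.Injective (c h)) : LP G p →L[ℂ] LP G p :=
  ∑' h, x h • compL hp (c h) (hc h)

theorem famL_summable (hp : 0 < p.toReal) {x : G → ℂ} (hx : Summable fun h => ‖x h‖)
    (c : G → G → G) (hc : ∀ h, Function.Injective (c h)) :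
    Summable fun h => x h • compL (p := p) hp (c h) (hc h) := by
  refine Summable.of_norm_bounded hx (fun h => ?_)
  rw [norm_smul]
  calc ‖x h‖ * ‖compL (p := p) hp (c h) (hc h)‖ ≤ ‖x h‖ * 1 :=
        mul_le_mul_of_nonneg_left (compL_norm hp _ _) (norm_nonneg _)
    _ = ‖x h‖ := mul_one _

theorem famL_norm (hp : 0 < p.toReal) {x : G → ℂ} (hx : Summable fun h => ‖x h‖)
    (c : G → G → G) (hc : ∀ h, Function.Injective (c h)) :
    ‖famL (p := p) hp x c hc‖ ≤ ∑' h, ‖x h‖ := by
  refine tsum_of_norm_bounded hx.hasSum (fun h => ?_)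
  rw [norm_smul]
  calc ‖x h‖ * ‖compL (p := p) hp (c h) (hc h)‖ ≤ ‖x h‖ * 1 :=
        mul_le_mul_of_nonneg_left (compL_norm hp _ _) (norm_nonneg _)
    _ = ‖x h‖ := mul_one _

theorem famL_apply (hp : 0 < p.toReal) {x : G → ℂ} (hx : Summable fun h => ‖x h‖)
    (c : G → G → G) (hc : ∀ h, Function.Injective (c h)) (f : LP G p) (g : G) :
    famL hp x c hc f g = ∑' h, x h * f (c h g) := by
  have h1 := (famL_summable (p := p) hp hx c hc).hasSum
  have h2 : HasSum (fun h => (x h • compL (p := p) hp (c h) (hc h)) f) (famL hp x c hc f) :=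
    h1.mapL (ContinuousLinearMap.apply ℂ (LP G p) f)
  have h3 := h2.mapL (lp.evalCLM ℂ (fun _ : G => ℂ) p g)
  exact (h3.tsum_eq).symm

end

end Pool.Agent.R190.Aug
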