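import Mathlib
import Pool.Agent.R190.Aug.A

open scoped ENNReal NNReal InnerProductSpace

namespace Pool.Agent.R190.Aug

theorem hp1 : 0 < (1 : ℝ≥0∞).toReal := by norm_num
theorem hp2 : 0 < (2 : ℝ≥0∞).toReal := by norm_num

section
variable {G : Type*} [Group G]

theorem inj_left (h : G) : Function.Injective (fun g : G => h⁻¹ * g) := mul_right_injective _
theorem inj_right (k : G) : Function.Injective (fun g : G => g * k⁻¹) := mul_left_injective _

variable {p : ℝ≥0∞} [Fact (1 ≤ p)]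

/-- Left translation. -/
noncomputable def lam (hp : 0 < p.toReal) (h : G) : LP G p →L[ℂ] LP G p :=
  compL hp (fun g => h⁻¹ * g) (inj_left h)

/-- Right translation. -/
noncomputable def rho (hp : 0 < p.toReal) (k : G) : LP G p →L[ℂ] LP G p :=
  compL hp (fun g => g * k⁻¹) (inj_right k)

/-- Left convolution. -/
noncomputable def Lc (hp : 0 < p.toReal) (x : G → ℂ) : LP G p →L[ℂ] LP G p :=
  famL hp x (fun h g => h⁻¹ * g) inj_left

/-- Right convolution. -/
noncomputable def Rc (hp : 0 < p.toReal) (x : G → ℂ) : LP G p →L[ℂ] LP G p :=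
  famL hp x (fun k g => g * k⁻¹) inj_right

@[simp] theorem lam_apply (hp : 0 < p.toReal) (h : G) (f : LP G p) (g : G) :
    lam hp h f g = f (h⁻¹ * g) := rfl
@[simp] theorem rho_apply (hp : 0 < p.toReal) (h : G) (f : LP G p) (g : G) :
    rho hp h f g = f (g * h⁻¹) := rfl

theorem Lc_apply (hp : 0 < p.toReal) {x : G → ℂ} (hx : Summable fun h => ‖x h‖) (f : LP G p)
    (g : G) : Lc hp x f g = ∑' h, x h * f (h⁻¹ * g) := famL_apply hp hx _ _ f g
theorem Rc_apply (hp : 0 < p.toReal) {x : G → ℂ} (hx : Summable fun h => ‖x h‖) (f : LP G p)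
    (g : G) : Rc hp x f g = ∑' h, x h * f (g * h⁻¹) := famL_apply hp hx _ _ f g

theorem lam_rho (hp : 0 < p.toReal) (h k : G) (f : LP G p) :
    lam hp h (rho hp k f) = rho hp k (lam hp h f) := by
  ext g
  simp [mul_assoc]

theorem Lc_rho (hp : 0 < p.toReal) {x : G → ℂ} (hx : Summable fun h => ‖x h‖) (k : G)
    (f : LP G p) : Lc hp x (rho hp k f) = rho hp k (Lc hp x f) := by
  ext g
  rw [Lc_apply hp hx, rho_apply, Lc_apply hp hx]
  simp [mul_assoc]

/-- `Rc` commutes with every operator commuting with the right translations. -/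
theorem Rc_comm (hp : 0 < p.toReal) {x : G → ℂ} (hx : Summable fun h => ‖x h‖)
    (T : LP G p →L[ℂ] LP G p) (hT : ∀ k f, T (rho hp k f) = rho hp k (T f)) (f : LP G p) :
    T (Rc hp x f) = Rc hp x (T f) := by
  have h1 : ∀ f : LP G p, HasSum (fun h => x h • rho hp h f) (Rc hp x f) := fun f =>
    ((famL_summable (p := p) hp hx (fun k g => g * k⁻¹) inj_right).hasSum).mapL
      (ContinuousLinearMap.apply ℂ (LP G p) f)
  have h2 := (h1 f).mapL T
  have h3 := h1 (T f)
  refine h2.unique ?_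
  convert h3 using 2 with h
  rw [map_smul, hT]

open Classical in
/-- The point mass. -/
noncomputable def dl (p : ℝ≥0∞) (g : G) : LP G p := lp.single p g (1 : ℂ)

theorem dl_self (g : G) : dl p g g = 1 := by
  classical
  unfold dl; rw [lp.single_apply_self]

theorem dl_ne {g h : G} (hgh : h ≠ g) : dl p g h = 0 := by
  classical
  unfold dl; rw [lp.single_apply_ne _ _ _ hgh]

theorem rho_dl (hp : 0 < p.toReal) (k g : G) : rho hp k (dl p g) = dl p (g * k) := by
  ext t
  rw [rho_apply]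
  by_cases h : t = g * k
  · subst h
    rw [mul_inv_cancel_right, dl_self, dl_self]
  · rw [dl_ne h, dl_ne]
    intro h'
    exact h (by rw [← h', inv_mul_cancel_right])

theorem lam_dl (hp : 0 < p.toReal) (k g : G) : lam hp k (dl p g) = dl p (k * g) := by
  ext t
  rw [lam_apply]
  by_cases h : t = k * g
  · subst h
    rw [inv_mul_cancel_left, dl_self, dl_self]
  · rw [dl_ne h, dl_ne]
    intro h'
    exact h (by rw [← h', mul_inv_cancel_left])

theorem Lc_dl (hp : 0 < p.toReal) {x : G → ℂ} (hx : Summable fun h => ‖x h‖) (g : G) :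
    Lc hp x (dl p (1 : G)) g = x g := by
  rw [Lc_apply hp hx, tsum_eq_single g]
  · rw [inv_mul_cancel, dl_self, mul_one]
  · intro h hh
    rw [dl_ne, mul_zero]
    intro h'
    exact hh (inv_mul_eq_one.1 h')

theorem Rc_dl (hp : 0 < p.toReal) {x : G → ℂ} (hx : Summable fun h => ‖x h‖) (g : G) :
    Rc hp x (dl p (1 : G)) g = x g := by
  rw [Rc_apply hp hx, tsum_eq_single g]
  · rw [mul_inv_cancel, dl_self, mul_one]
  · intro h hh
    rw [dl_ne, mul_zero]
    intro h'
    exact hh (mul_inv_eq_one.1 h').symm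

/-- Expansion of an operator along point masses. -/
theorem hasSum_dl (hp : 0 < p.toReal) (hpt : p ≠ ⊤) (T : LP G p →L[ℂ] LP G p)
    (f : LP G p) : HasSum (fun g => f g • T (dl p g)) (T f) := by
  classical
  have h := (lp.hasSum_single hpt f).mapL T
  convert h using 2 with g
  rw [← map_smul]
  congr 1
  unfold dl
  rw [← lp.single_smul, smul_eq_mul, mul_one]

theorem ext_dl (hp : 0 < p.toReal) (hpt : p ≠ ⊤) {S T : LP G p →L[ℂ] LP G p}
    (hS : ∀ k f, S (rho hp k f) = rho hp k (S f)) (hT : ∀ k f, T (rho hp k f) = rho hp k (T f))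
    (h : S (dl p 1) = T (dl p 1)) : S = T := by
  ext1 f
  refine (hasSum_dl hp hpt S f).unique ?_
  convert hasSum_dl hp hpt T f using 2 with g
  congr 1
  have h1 := rho_dl (p := p) hp g (1 : G)
  rw [one_mul] at h1
  rw [← h1, hS, hT, h]

end

section two
variable {G : Type*} [Group G]

/-- Symmetry of the trace. -/
theorem trace_comm {S T : LP G 2 →L[ℂ] LP G 2}
    (hS : ∀ k f, S (rho hp2 k f) = rho hp2 k (S f))
    (hT : ∀ k f, T (rho hp2 k f) = rho hp2 k (T f)) :
    (S (T (dl 2 1))) 1 = (T (S (dl 2 1))) 1 := by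
  have key : ∀ {S T : LP G 2 →L[ℂ] LP G 2}, (∀ k f, S (rho hp2 k f) = rho hp2 k (S f)) →
      (S (T (dl 2 1))) 1 = ∑' g, (T (dl 2 1)) g * (S (dl 2 1)) g⁻¹ := by
    intro S T hS
    have h := (hasSum_dl hp2 (by norm_num) S (T (dl 2 1))).mapL
      (lp.evalCLM ℂ (fun _ : G => ℂ) 2 (1 : G))
    refine h.tsum_eq.symm.trans ?_
    refine tsum_congr fun g => ?_
    change ((T (dl 2 1)) g • S (dl 2 g) : LP G 2) 1 = _
    have h1 := rho_dl (p := 2) hp2 g (1 : G)
    rw [one_mul] at h1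
    rw [← h1, hS, lp.coeFn_smul, Pi.smul_apply, rho_apply, one_mul, smul_eq_mul]
  rw [key hS, key hT, ← (Equiv.inv G).tsum_eq]
  refine tsum_congr fun g => ?_
  simp [mul_comm]

theorem rho_adj (k : G) : (rho (p := 2) hp2 k).adjoint = rho hp2 k⁻¹ := by
  rw [eq_comm, ContinuousLinearMap.eq_adjoint_iff]
  intro f g
  rw [lp.inner_eq_tsum, lp.inner_eq_tsum, ← (Equiv.mulRight k).tsum_eq (fun i => ⟪f i, _⟫_ℂ)]
  refine tsum_congr fun t => ?_
  simp

theorem lam_adj (k : G) : (lam (p := 2) hp2 k).adjoint = lam hp2 k⁻¹ := by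
  rw [eq_comm, ContinuousLinearMap.eq_adjoint_iff]
  intro f g
  rw [lp.inner_eq_tsum, lp.inner_eq_tsum, ← (Equiv.mulLeft k).tsum_eq (fun i => ⟪f i, _⟫_ℂ)]
  refine tsum_congr fun t => ?_
  simp

/-- The group von Neumann algebra is finite. -/
theorem injective_of_unit {T : LP G 2 →L[ℂ] LP G 2}
    (hT : ∀ k f, T (rho hp2 k f) = rho hp2 k (T f)) (hu : IsUnit (T * T.adjoint)) :
    Function.Injective T ∧ Function.Surjective T := by
  obtain ⟨u, hu⟩ := hu
  set U : LP G 2 →L[ℂ] LP G 2 := (↑u⁻¹ : LP G 2 →L[ℂ] LP G 2) with hU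
  have h1 : ∀ f, T (T.adjoint (U f)) = f := by
    intro f
    have : (T * T.adjoint) * U = 1 := by rw [← hu, hU]; exact u.mul_inv
    exact congrArg (fun S : LP G 2 →L[ℂ] LP G 2 => S f) this
  have h2 : ∀ f, U (T (T.adjoint f)) = f := by
    intro f
    have : U * (T * T.adjoint) = 1 := by rw [← hu, hU]; exact u.inv_mul
    exact congrArg (fun S : LP G 2 →L[ℂ] LP G 2 => S f) this
  have hTa : ∀ k f, T.adjoint (rho hp2 k f) = rho hp2 k (T.adjoint f) := by
    intro k f
    refine ext_inner_left ℂ fun v => ?_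
    rw [ContinuousLinearMap.adjoint_inner_right]
    have h3 : rho (p := 2) hp2 k = (rho hp2 k⁻¹).adjoint := by rw [rho_adj, inv_inv]
    rw [h3, ContinuousLinearMap.adjoint_inner_right, ContinuousLinearMap.adjoint_inner_right,
      ContinuousLinearMap.adjoint_inner_right, hT]
  have hUc : ∀ k f, U (rho hp2 k f) = rho hp2 k (U f) := by
    intro k f
    have h4 := h1 f
    conv_lhs => rw [← h4]
    rw [← hT, ← hTa, h2]
  set Q : LP G 2 →L[ℂ] LP G 2 := T.adjoint * U with hQ
  have hQc : ∀ k f, Q (rho hp2 k f) = rho hp2 k (Q f) := by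
    intro k f
    change T.adjoint (U (rho hp2 k f)) = rho hp2 k (T.adjoint (U f))
    rw [hUc, hTa]
  have htr : (Q (T (dl 2 1))) (1 : G) = 1 := by
    rw [trace_comm hQc hT]
    change (T (T.adjoint (U (dl 2 1)))) (1 : G) = 1
    rw [h1, dl_self]
  set d : LP G 2 := dl 2 (1 : G) with hd
  have hUs : ∀ f g, ⟪U f, g⟫_ℂ = ⟪f, U g⟫_ℂ := by
    intro f g
    have e1 : ⟪U f, T (T.adjoint (U g))⟫_ℂ = ⟪T (T.adjoint (U f)), U g⟫_ℂ := by
      rw [← ContinuousLinearMap.adjoint_inner_left, ContinuousLinearMap.adjoint_inner_right]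
    rwa [h1, h1] at e1
  have hin : ∀ v : LP G 2, ⟪d, v⟫_ℂ = v 1 := by
    intro v
    classical
    rw [hd]
    unfold dl
    rw [lp.inner_single_left]
    simp
  have hQd : Q (T d) = d := by
    have e1 : ⟪Q (T d), Q (T d)⟫_ℂ = 1 := by
      change ⟪T.adjoint (U (T d)), T.adjoint (U (T d))⟫_ℂ = 1
      rw [ContinuousLinearMap.adjoint_inner_left, h1, hUs, ← ContinuousLinearMap.adjoint_inner_right]
      change ⟪d, Q (T d)⟫_ℂ = 1
      rw [hin, htr]
    have e2 : ⟪d, Q (T d)⟫_ℂ = 1 := by rw [hin, htr]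
    have e3 : ⟪d, d⟫_ℂ = 1 := by rw [hin, hd, dl_self]
    have e4 : ⟪Q (T d), d⟫_ℂ = 1 := by rw [← inner_conj_symm, e2, map_one]
    have e5 : ⟪Q (T d) - d, Q (T d) - d⟫_ℂ = 0 := by
      rw [inner_sub_left, inner_sub_right, inner_sub_right, e1, e2, e3, e4]; ring
    exact sub_eq_zero.1 (inner_self_eq_zero.1 e5)
  have hQT : Q * T = 1 := by
    refine ext_dl hp2 (by norm_num) ?_ ?_ ?_
    · intro k f
      change Q (T (rho hp2 k f)) = rho hp2 k (Q (T f))
      rw [hT, hQc]
    · intro k f; rfl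
    · exact hQd
  refine ⟨?_, fun f => ⟨_, h1 f⟩⟩
  intro f g hfg
  have := congrArg Q hfg
  have e := fun f => congrArg (fun S : LP G 2 →L[ℂ] LP G 2 => S f) hQT
  have e1 := e f
  have e2 := e g
  change Q (T f) = f at e1
  change Q (T g) = g at e2
  rwa [e1, e2] at this

end two

end Pool.Agent.R190.Aug
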