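import Mathlib
import Pool.Agent.R190.Aug.B

open scoped ENNReal NNReal InnerProductSpace

namespace Pool.Agent.R190.Aug

section
variable {G : Type*} [Group G] {p : ℝ≥0∞} [Fact (1 ≤ p)]

open Classical in
/-- A map moving every point along an edge labelled `a` (backwards on `A`). -/
noncomputable def cmap (a : G) (A : Set G) (h : G) : G := if h ∈ A then h * a⁻¹ else h * a

/-- Averages over two disjoint injective maps. -/
noncomputable def El (hp : 0 < p.toReal) (c d : G → G) (hc : Function.Injective c)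
    (hd : Function.Injective d) : LP G p →L[ℂ] LP G p :=
  (1 / 2 : ℂ) • (compL hp c hc + compL hp d hd)

theorem El_apply (hp : 0 < p.toReal) (c d : G → G) (hc : Function.Injective c)
    (hd : Function.Injective d) (f : LP G p) (g : G) :
    El hp c d hc hd f g = (1 / 2 : ℂ) * (f (c g) + f (d g)) := rfl

theorem tsum_two {u : G → ℝ} (hu : Summable u) (h0 : ∀ g, 0 ≤ u g) {c d : G → G}
    (hc : Function.Injective c) (hd : Function.Injective d) (hcd : ∀ h k, c h ≠ d k) :
    ∑' g, u (c g) + ∑' g, u (d g) ≤ ∑' g, u g := by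
  have hinj : Function.Injective (Sum.elim c d) := by
    rintro (x | x) (y | y) h
    · exact congrArg _ (hc h)
    · exact absurd h (hcd _ _)
    · exact absurd h.symm (hcd _ _)
    · exact congrArg _ (hd h)
  have h1 := tsum_comp_le_tsum_of_inj hu h0 hinj
  have h2 : Summable (u ∘ Sum.elim c d) := hu.comp_injective hinj
  have h3 : ∑' s, (u ∘ Sum.elim c d) s = ∑' g, u (c g) + ∑' g, u (d g) :=
    Summable.tsum_sum (hu.comp_injective hc) (hu.comp_injective hd)
  linarith

theorem El_pow (hp : 0 < p.toReal) (c d : G → G) (hc : Function.Injective c)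
    (hd : Function.Injective d) (hcd : ∀ h k, c h ≠ d k)
    (hr : ∀ x y : ℂ, ‖(1 / 2 : ℂ) * (x + y)‖ ^ p.toReal ≤
      (‖x‖ ^ p.toReal + ‖y‖ ^ p.toReal) / 2) (f : LP G p) :
    ‖El hp c d hc hd f‖ ^ p.toReal ≤ ‖f‖ ^ p.toReal / 2 := by
  rw [lp.norm_rpow_eq_tsum hp, lp.norm_rpow_eq_tsum hp]
  have hs := (lp.memℓp f).summable hp
  have h1 := tsum_two hs (fun g => by positivity) hc hd hcd
  have h2 : ∑' i, ‖El hp c d hc hd f i‖ ^ p.toReal ≤
      ∑' i, (‖f (c i)‖ ^ p.toReal + ‖f (d i)‖ ^ p.toReal) / 2 := by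
    refine Summable.tsum_le_tsum (fun i => ?_) ((lp.memℓp _).summable hp)
      (((hs.comp_injective hc).add (hs.comp_injective hd)).div_const 2)
    rw [El_apply]
    exact hr _ _
  have hsc : Summable fun i => ‖f (c i)‖ ^ p.toReal := hs.comp_injective hc
  have hsd : Summable fun i => ‖f (d i)‖ ^ p.toReal := hs.comp_injective hd
  have h3 : ∑' i, (‖f (c i)‖ ^ p.toReal + ‖f (d i)‖ ^ p.toReal) / 2 =
      (∑' i, ‖f (c i)‖ ^ p.toReal + ∑' i, ‖f (d i)‖ ^ p.toReal) / 2 := by
    rw [tsum_div_const, hsc.tsum_add hsd]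
  rw [h3] at h2
  exact h2.trans (by
    have := div_le_div_of_nonneg_right h1 (show (0 : ℝ) ≤ 2 by norm_num)
    exact this)

theorem El_norm1 (c d : G → G) (hc : Function.Injective c)
    (hd : Function.Injective d) (hcd : ∀ h k, c h ≠ d k) :
    ‖El (p := 1) hp1 c d hc hd‖ ≤ 5 / 7 := by
  refine ContinuousLinearMap.opNorm_le_bound _ (by norm_num) fun f => ?_
  have h := El_pow (p := 1) hp1 c d hc hd hcd (by
    intro x y
    simp only [ENNReal.toReal_one, Real.rpow_one, norm_mul]
    have := norm_add_le x y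
    norm_num
    linarith) f
  simp only [ENNReal.toReal_one, Real.rpow_one] at h
  have := norm_nonneg f
  linarith

theorem El_norm2 (c d : G → G) (hc : Function.Injective c)
    (hd : Function.Injective d) (hcd : ∀ h k, c h ≠ d k) :
    ‖El (p := 2) hp2 c d hc hd‖ ≤ 5 / 7 := by
  refine ContinuousLinearMap.opNorm_le_bound _ (by norm_num) fun f => ?_
  have h := El_pow (p := 2) hp2 c d hc hd hcd (by
    intro x y
    simp only [ENNReal.toReal_ofNat, Real.rpow_ofNat, norm_mul]
    have h1 := norm_add_le x y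
    have h2 : ‖(1 / 2 : ℂ)‖ = 1 / 2 := by norm_num
    rw [h2]
    have h3 := norm_nonneg (x + y)
    nlinarith [sq_nonneg (‖x‖ - ‖y‖), norm_nonneg x, norm_nonneg y, mul_nonneg h3 h3]) f
  simp only [ENNReal.toReal_ofNat, Real.rpow_ofNat] at h
  have h0 := norm_nonneg f
  refine abs_le_of_sq_le_sq' ?_ (by positivity) |>.2
  nlinarith [sq_nonneg ‖f‖]

/-- The pointwise selection of differences. -/
noncomputable def phi (hp : 0 < p.toReal) (a : G) (A : Set G) : LP G p →L[ℂ] LP G p :=
  (maskL hp Aᶜ).comp (compL hp (fun g => g * a) (mul_left_injective a)) - maskL hp A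

theorem phi_norm (hp : 0 < p.toReal) (a : G) (A : Set G) : ‖phi (p := p) hp a A‖ ≤ 2 := by
  have h1 := (maskL (p := p) hp Aᶜ).opNorm_comp_le
    (compL hp (fun g => g * a) (mul_left_injective a))
  have h2 := maskL_norm (p := p) hp Aᶜ
  have h3 := maskL_norm (p := p) hp A
  have h4 := compL_norm (p := p) hp (fun g => g * a) (mul_left_injective a)
  have h5 := norm_sub_le ((maskL (p := p) hp Aᶜ).comp
    (compL hp (fun g => g * a) (mul_left_injective a))) (maskL hp A)
  have h6 : ‖maskL (p := p) hp Aᶜ‖ * ‖compL (p := p) hp (fun g => g * a)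
      (mul_left_injective a)‖ ≤ 1 * 1 :=
    mul_le_mul h2 h4 (norm_nonneg _) zero_le_one
  unfold phi
  linarith

open Classical in
theorem phi_apply (hp : 0 < p.toReal) (a : G) (A : Set G) (f : LP G p) (g : G) :
    phi hp a A f g = if g ∈ A then - f g else f (g * a) := by
  change Aᶜ.indicator (fun h => f (h * a)) g - A.indicator f g = _
  by_cases h : g ∈ A
  · rw [if_pos h, Set.indicator_of_mem h, Set.indicator_of_notMem (by simpa using h)]
    ring
  · rw [if_neg h, Set.indicator_of_notMem h, Set.indicator_of_mem (by simpa using h)]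
    ring

theorem phi_diff (hp : 0 < p.toReal) (a : G) (A : Set G) (f : LP G p) (g : G) :
    phi hp a A (rho hp a f - f) g = f g - f (cmap a A g) := by
  rw [phi_apply]
  unfold cmap
  by_cases h : g ∈ A
  · rw [if_pos h, if_pos h]
    change -(f (g * a⁻¹) - f g) = _
    ring
  · rw [if_neg h, if_neg h]
    change f (g * a * a⁻¹) - f (g * a) = _
    rw [mul_inv_cancel_right]

/-- The contraction. -/
noncomputable def Kl (hp : 0 < p.toReal) (a b : G) (A B : Set G)
    (ha : Function.Injective (cmap a A)) (hb : Function.Injective (cmap b B))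
    (e f : G → ℂ) : LP G p →L[ℂ] LP G p :=
  El hp (cmap a A) (cmap b B) ha hb -
    (1 / 2 : ℂ) • ((phi hp a A).comp (Rc hp e) + (phi hp b B).comp (Rc hp f))

theorem Kl_norm (hp : 0 < p.toReal) (a b : G) (A B : Set G)
    (ha : Function.Injective (cmap a A)) (hb : Function.Injective (cmap b B))
    {e f : G → ℂ} (he : Summable fun g => ‖e g‖) (hf : Summable fun g => ‖f g‖) :
    ‖Kl (p := p) hp a b A B ha hb e f‖ ≤
      ‖El (p := p) hp (cmap a A) (cmap b B) ha hb‖ + (∑' g, ‖e g‖ + ∑' g, ‖f g‖) := by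
  have h1 := (phi (p := p) hp a A).opNorm_comp_le (Rc hp e)
  have h2 := (phi (p := p) hp b B).opNorm_comp_le (Rc hp f)
  have h3 : ‖Rc (p := p) hp e‖ ≤ _ := famL_norm hp he _ _
  have h4 : ‖Rc (p := p) hp f‖ ≤ _ := famL_norm hp hf _ _
  have h5 : ‖phi (p := p) hp a A‖ * ‖Rc (p := p) hp e‖ ≤ 2 * ∑' g, ‖e g‖ :=
    mul_le_mul (phi_norm _ _ _) h3 (norm_nonneg _) (by norm_num)
  have h6 : ‖phi (p := p) hp b B‖ * ‖Rc (p := p) hp f‖ ≤ 2 * ∑' g, ‖f g‖ :=
    mul_le_mul (phi_norm _ _ _) h4 (norm_nonneg _) (by norm_num)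
  have h7 := norm_add_le ((phi (p := p) hp a A).comp (Rc hp e)) ((phi hp b B).comp (Rc hp f))
  have h8 := norm_sub_le (El (p := p) hp (cmap a A) (cmap b B) ha hb)
    ((1 / 2 : ℂ) • ((phi hp a A).comp (Rc hp e) + (phi hp b B).comp (Rc hp f)))
  rw [norm_smul] at h8
  have h9 : ‖(1 / 2 : ℂ)‖ = 1 / 2 := by norm_num
  rw [h9] at h8
  unfold Kl
  linarith

/-- The equation satisfied by a function with given perturbed gradient. -/
theorem Kl_eq (hp : 0 < p.toReal) (a b : G) (A B : Set G)
    (ha : Function.Injective (cmap a A)) (hb : Function.Injective (cmap b B))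
    {e f : G → ℂ} {v z w : LP G p} (h1 : rho hp a v - v + Rc hp e v = z)
    (h2 : rho hp b v - v + Rc hp f v = w) :
    v = Kl hp a b A B ha hb e f v + (1 / 2 : ℂ) • (phi hp a A z + phi hp b B w) := by
  have e1 : phi hp a A z = phi hp a A (rho hp a v - v) + phi hp a A (Rc hp e v) := by
    rw [← h1, map_add]
  have e2 : phi hp b B w = phi hp b B (rho hp b v - v) + phi hp b B (Rc hp f v) := by
    rw [← h2, map_add]
  have e3 : El hp (cmap a A) (cmap b B) ha hb v +
      (1 / 2 : ℂ) • (phi hp a A (rho hp a v - v) + phi hp b B (rho hp b v - v)) = v := by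
    ext g
    change El hp (cmap a A) (cmap b B) ha hb v g + (1 / 2 : ℂ) * (phi hp a A (rho hp a v - v) g +
      phi hp b B (rho hp b v - v) g) = v g
    rw [El_apply, phi_diff, phi_diff]
    ring
  have e4 : Kl hp a b A B ha hb e f v = El hp (cmap a A) (cmap b B) ha hb v -
      (1 / 2 : ℂ) • (phi hp a A (Rc hp e v) + phi hp b B (Rc hp f v)) := rfl
  conv_lhs => rw [← e3]
  rw [e4, e1, e2]
  module

theorem Kl_apply (hp : 0 < p.toReal) (a b : G) (A B : Set G)
    (ha : Function.Injective (cmap a A)) (hb : Function.Injective (cmap b B))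
    (e f : G → ℂ) (v : LP G p) (g : G) :
    Kl hp a b A B ha hb e f v g = El hp (cmap a A) (cmap b B) ha hb v g -
      (1 / 2 : ℂ) * (phi hp a A (Rc hp e v) g + phi hp b B (Rc hp f v) g) := rfl

end

end Pool.Agent.R190.Aug
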