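import Mathlib
import Pool.Agent.R190.Aug.C

open scoped ENNReal NNReal InnerProductSpace

namespace Pool.Agent.R190.Aug

section
variable {G : Type*} [Group G]

/-- Convolution. -/
noncomputable def conv (x z : G → ℂ) (t : G) : ℂ := ∑' h, x h * z (h⁻¹ * t)

theorem mem1 {z : G → ℂ} (hz : Summable fun g => ‖z g‖) : Memℓp z 1 := by
  rw [memℓp_gen_iff hp1]
  simpa using hz

theorem sum1 (f : LP G 1) : Summable fun g => ‖f g‖ := by
  simpa using (lp.memℓp f).summable hp1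

/-- Functions in `ℓ¹`. -/
noncomputable def to1 (z : G → ℂ) (hz : Summable fun g => ‖z g‖) : LP G 1 := ⟨z, mem1 hz⟩

/-- `ℓ¹ → ℓ²`. -/
noncomputable def inc (f : LP G 1) : LP G 2 :=
  ⟨f, (lp.memℓp f).of_exponent_ge (by norm_num)⟩

theorem inc_apply (f : LP G 1) (g : G) : inc f g = f g := rfl
theorem to1_apply (z : G → ℂ) (hz : Summable fun g => ‖z g‖) (g : G) : to1 z hz g = z g := rfl

theorem conv_summable {x z : G → ℂ} (hx : Summable fun g => ‖x g‖)
    (hz : Summable fun g => ‖z g‖) : Summable fun g => ‖conv x z g‖ := by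
  have h := sum1 (Lc hp1 x (to1 z hz))
  refine h.congr fun g => ?_
  rw [Lc_apply hp1 hx]
  rfl

/-- The augmentation of `x * v`. -/
theorem aug_conv {x : G → ℂ} (hx : Summable fun g => ‖x g‖) (h0 : ∑' g, x g = 0)
    (v : LP G 1) : ∑' g, (Lc hp1 x v) g = 0 := by
  have h1 : HasSum (fun h => x h • lam hp1 h v) (Lc hp1 x v) :=
    ((famL_summable (p := 1) hp1 hx (fun h g => h⁻¹ * g) inj_left).hasSum).mapL
      (ContinuousLinearMap.apply ℂ (LP G 1) v)
  have h2 := h1.mapL (lp.tsumCLM (α := G) (𝕜 := ℂ) (E := ℂ))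
  have h3 : ∀ h, (lp.tsumCLM (α := G) (𝕜 := ℂ) (E := ℂ)) (x h • lam hp1 h v) = x h * ∑' g, v g := by
    intro h
    rw [map_smul, smul_eq_mul]
    congr 1
    change ∑' g, v (h⁻¹ * g) = _
    exact (Equiv.mulLeft h⁻¹).tsum_eq (fun g => v g)
  simp_rw [h3] at h2
  have h4 : ∑' h, x h * ∑' g, v g = 0 := by rw [tsum_mul_right, h0, zero_mul]
  exact h2.tsum_eq.symm.trans h4

/-- The operator identity. -/
theorem op_eq {x z : G → ℂ} (hx : Summable fun g => ‖x g‖) (hz : Summable fun g => ‖z g‖) (a : G)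
    {e : G → ℂ} (he : Summable fun g => ‖e g‖)
    (hez : ∀ g, conv x z g = dl 2 a g - dl 2 (1 : G) g + e g) :
    (Lc (p := 2) hp2 x).comp (Lc hp2 z) =
      lam hp2 a - ContinuousLinearMap.id ℂ (LP G 2) + Lc hp2 e := by
  refine ext_dl hp2 (by norm_num) ?_ ?_ ?_
  · intro k f
    change Lc hp2 x (Lc hp2 z (rho hp2 k f)) = rho hp2 k (Lc hp2 x (Lc hp2 z f))
    rw [Lc_rho hp2 hz, Lc_rho hp2 hx]
  · intro k f
    change lam hp2 a (rho hp2 k f) - rho hp2 k f + Lc hp2 e (rho hp2 k f) =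
      rho hp2 k (lam hp2 a f - f + Lc hp2 e f)
    rw [lam_rho, Lc_rho hp2 he, map_add, map_sub]
  · ext t
    change Lc hp2 x (Lc hp2 z (dl 2 1)) t =
      lam hp2 a (dl 2 1) t - dl 2 (1 : G) t + Lc hp2 e (dl 2 1) t
    rw [lam_dl, mul_one, Lc_dl hp2 he, ← hez, Lc_apply hp2 hx]
    unfold conv
    refine tsum_congr fun h => ?_
    rw [Lc_dl hp2 hz]

theorem lower {a b : G} {A B : Set G} (ha : Function.Injective (cmap a A))
    (hb : Function.Injective (cmap b B)) (hab : ∀ h k, cmap a A h ≠ cmap b B k) (v : LP G 2) :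
    2 / 7 * ‖v‖ ≤ ‖rho hp2 a v - v‖ + ‖rho hp2 b v - v‖ := by
  have h1 : v = El hp2 (cmap a A) (cmap b B) ha hb v +
      (1 / 2 : ℂ) • (phi hp2 a A (rho hp2 a v - v) + phi hp2 b B (rho hp2 b v - v)) := by
    ext g
    change v g = El hp2 (cmap a A) (cmap b B) ha hb v g +
      (1 / 2 : ℂ) * (phi hp2 a A (rho hp2 a v - v) g + phi hp2 b B (rho hp2 b v - v) g)
    rw [El_apply, phi_diff, phi_diff]
    ring
  have h2 := norm_add_le (El hp2 (cmap a A) (cmap b B) ha hb v)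
      ((1 / 2 : ℂ) • (phi hp2 a A (rho hp2 a v - v) + phi hp2 b B (rho hp2 b v - v)))
  rw [← h1, norm_smul] at h2
  have h3 := (El hp2 (cmap a A) (cmap b B) ha hb).le_of_opNorm_le (El_norm2 _ _ ha hb hab) v
  have h4 := (phi hp2 a A).le_of_opNorm_le (phi_norm hp2 a A) (rho hp2 a v - v)
  have h5 := (phi hp2 b B).le_of_opNorm_le (phi_norm hp2 b B) (rho hp2 b v - v)
  have h6 := norm_add_le (phi hp2 a A (rho hp2 a v - v)) (phi hp2 b B (rho hp2 b v - v))
  have h7 : ‖(1 / 2 : ℂ)‖ = 1 / 2 := by norm_num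
  rw [h7] at h2
  linarith

/-- Inversion. -/
noncomputable def Jl : LP G 2 →L[ℂ] LP G 2 := compL hp2 (fun g => g⁻¹) inv_injective

theorem Jl_Jl (f : LP G 2) : Jl (Jl f) = f := by
  ext g
  change f (g⁻¹)⁻¹ = f g
  rw [inv_inv]

theorem Jl_norm (f : LP G 2) : ‖Jl f‖ = ‖f‖ := by
  have h1 := (Jl (G := G)).le_of_opNorm_le (compL_norm hp2 _ _) f
  have h2 := (Jl (G := G)).le_of_opNorm_le (compL_norm hp2 _ _) (Jl f)
  rw [Jl_Jl] at h2
  exact le_antisymm (by linarith) (by linarith)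

theorem Jl_rho (a : G) (f : LP G 2) : rho hp2 a (Jl f) = Jl (lam hp2 a⁻¹ f) := by
  ext g
  change f (g * a⁻¹)⁻¹ = f (a⁻¹⁻¹ * g⁻¹)
  simp

theorem lower_left {a b : G} {A B : Set G} (ha : Function.Injective (cmap a A))
    (hb : Function.Injective (cmap b B)) (hab : ∀ h k, cmap a A h ≠ cmap b B k) (v : LP G 2) :
    2 / 7 * ‖v‖ ≤ ‖lam hp2 a⁻¹ v - v‖ + ‖lam hp2 b⁻¹ v - v‖ := by
  have h := lower ha hb hab (Jl v)
  rw [Jl_rho, Jl_rho, ← map_sub, ← map_sub, Jl_norm, Jl_norm, Jl_norm] at h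
  exact h

theorem adj_bound {x z : G → ℂ} (hx : Summable fun g => ‖x g‖) (hz : Summable fun g => ‖z g‖)
    (a : G) {e : G → ℂ} (he : Summable fun g => ‖e g‖)
    (hez : ∀ g, conv x z g = dl 2 a g - dl 2 (1 : G) g + e g) (f : LP G 2) :
    ‖lam hp2 a⁻¹ f - f‖ ≤ ‖Lc (p := 2) hp2 z‖ * ‖(Lc (p := 2) hp2 x).adjoint f‖ +
      (∑' g, ‖e g‖) * ‖f‖ := by
  have h1 := congrArg ContinuousLinearMap.adjoint (op_eq hx hz a he hez)
  rw [ContinuousLinearMap.adjoint_comp, map_add, map_sub, lam_adj] at h1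
  have h2 : (Lc (p := 2) hp2 z).adjoint ((Lc (p := 2) hp2 x).adjoint f) =
      lam hp2 a⁻¹ f - f + (Lc (p := 2) hp2 e).adjoint f := by
    have := congrArg (fun S : LP G 2 →L[ℂ] LP G 2 => S f) h1
    have h3 : (ContinuousLinearMap.id ℂ (LP G 2)).adjoint = ContinuousLinearMap.id ℂ (LP G 2) :=
      ContinuousLinearMap.adjoint_id
    rw [h3] at this
    exact this
  have h4 : lam hp2 a⁻¹ f - f = (Lc (p := 2) hp2 z).adjoint ((Lc (p := 2) hp2 x).adjoint f) -
      (Lc (p := 2) hp2 e).adjoint f := by rw [h2]; abel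
  rw [h4]
  refine (norm_sub_le _ _).trans (add_le_add ?_ ?_)
  · have := (Lc (p := 2) hp2 z).adjoint.le_opNorm ((Lc (p := 2) hp2 x).adjoint f)
    rwa [LinearIsometryEquiv.norm_map] at this
  · have := (Lc (p := 2) hp2 e).adjoint.le_opNorm f
    rw [LinearIsometryEquiv.norm_map] at this
    exact this.trans (mul_le_mul_of_nonneg_right (famL_norm hp2 he _ _) (norm_nonneg _))

/-- **Main estimate.** -/
theorem main {a b : G} {A B : Set G} (ha : Function.Injective (cmap a A))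
    (hb : Function.Injective (cmap b B)) (hab : ∀ h k, cmap a A h ≠ cmap b B k)
    {x z w : G → ℂ} (hx : Summable fun g => ‖x g‖) (h0 : ∑' g, x g = 0)
    (hz : Summable fun g => ‖z g‖) (hw : Summable fun g => ‖w g‖) {e f : G → ℂ}
    (he : Summable fun g => ‖e g‖) (hf : Summable fun g => ‖f g‖)
    (hez : ∀ g, conv x z g = dl 2 a g - dl 2 (1 : G) g + e g)
    (hfw : ∀ g, conv x w g = dl 2 b g - dl 2 (1 : G) g + f g) :
    2 / 7 ≤ ∑' g, ‖e g‖ + ∑' g, ‖f g‖ := by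
  by_contra hlt
  push Not at hlt
  set T : LP G 2 →L[ℂ] LP G 2 := Lc hp2 x with hT
  have hTr : ∀ k v, T (rho hp2 k v) = rho hp2 k (T v) := fun k v => Lc_rho hp2 hx k v
  set M := ‖Lc (G := G) (p := 2) hp2 z‖ + ‖Lc (G := G) (p := 2) hp2 w‖ + 1 with hM
  have hMp : 0 < M := by positivity
  set η := 2 / 7 - (∑' g, ‖e g‖ + ∑' g, ‖f g‖) with hη
  have hηp : 0 < η := by linarith
  have hlow : ∀ v : LP G 2, η / M * ‖v‖ ≤ ‖T.adjoint v‖ := by
    intro v
    have h1 := lower_left ha hb hab v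
    have h2 := adj_bound hx hz a he hez v
    have h3 := adj_bound hx hw b hf hfw v
    rw [div_mul_eq_mul_div, div_le_iff₀ hMp]
    have h4 := norm_nonneg (T.adjoint v)
    rw [hη, hM]
    nlinarith
  have hunit : IsUnit (T * T.adjoint) := by
    refine ContinuousLinearMap.isUnit_of_forall_le_norm_inner_map _
      (c := ⟨(η / M) ^ 2, by positivity⟩) (by
        change (0 : ℝ) < (η / M) ^ 2
        positivity) fun v => ?_
    change ‖v‖ ^ 2 * (η / M) ^ 2 ≤ ‖⟪T (T.adjoint v), v⟫_ℂ‖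
    rw [← ContinuousLinearMap.adjoint_inner_right, inner_self_eq_norm_sq_to_K]
    have h1 := hlow v
    have h2 : ‖((‖T.adjoint v‖ : ℝ) : ℂ) ^ 2‖ = ‖T.adjoint v‖ ^ 2 := by
      rw [norm_pow, Complex.norm_real, norm_norm]
    refine le_trans ?_ (le_of_eq h2.symm)
    rw [← mul_pow, mul_comm]
    exact pow_le_pow_left₀ (by positivity) h1 2
  obtain ⟨hinj, hsurj⟩ := injective_of_unit hTr hunit
  obtain ⟨v, hv⟩ := hsurj (dl 2 1)
  -- the perturbed gradient of `v`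
  have grad : ∀ {c : G} {y q : G → ℂ} (hy : Summable fun g => ‖y g‖)
      (hq : Summable fun g => ‖q g‖)
      (hyq : ∀ g, conv x y g = dl 2 c g - dl 2 (1 : G) g + q g),
      rho hp2 c v - v + Rc hp2 q v = inc (to1 y hy) := by
    intro c y q hy hq hyq
    apply hinj
    rw [map_add, map_sub, hTr, Rc_comm hp2 hq T hTr, hv]
    ext g
    change rho hp2 c (dl 2 1) g - dl 2 (1 : G) g + Rc hp2 q (dl 2 1) g = T (inc (to1 y hy)) g
    rw [rho_dl, one_mul, Rc_dl hp2 hq, hT, Lc_apply hp2 hx, ← hyq]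
    rfl
  have hva := grad hz he hez
  have hvb := grad hw hf hfw
  have heq := Kl_eq hp2 a b A B ha hb hva hvb
  -- solution in `ℓ¹`
  set K1 : LP G 1 →L[ℂ] LP G 1 := Kl hp1 a b A B ha hb e f with hK1
  have hK1n : ‖K1‖ < 1 := by
    have h1 := Kl_norm (p := 1) hp1 a b A B ha hb he hf
    have h2 := El_norm1 _ _ ha hb hab
    linarith
  obtain ⟨u, hu⟩ := isUnit_one_sub_of_norm_lt_one hK1n
  set w1 : LP G 1 := (1 / 2 : ℂ) • (phi hp1 a A (to1 z hz) + phi hp1 b B (to1 w hw)) with hw1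
  set v1 : LP G 1 := (↑u⁻¹ : LP G 1 →L[ℂ] LP G 1) w1 with hv1
  have h1 : v1 - K1 v1 = w1 := by
    have h2 : (1 - K1) * (↑u⁻¹ : LP G 1 →L[ℂ] LP G 1) = 1 := by rw [← hu]; exact u.mul_inv
    have h3 := congrArg (fun S : LP G 1 →L[ℂ] LP G 1 => S w1) h2
    exact h3
  have hphi : ∀ (c : G) (C : Set G) (r : LP G 1) (g : G),
      phi hp2 c C (inc r) g = phi hp1 c C r g := by
    intro c C r g
    rw [phi_apply, phi_apply]
    rfl
  have hRc : ∀ {q : G → ℂ}, (Summable fun g => ‖q g‖) → ∀ (r : LP G 1),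
      Rc hp2 q (inc r) = inc (Rc hp1 q r) := by
    intro q hq r
    ext g
    rw [Rc_apply hp2 hq, inc_apply, Rc_apply hp1 hq]
    rfl
  have hK : ∀ g, Kl hp2 a b A B ha hb e f (inc v1) g = K1 v1 g := by
    intro g
    rw [Kl_apply, hK1, Kl_apply, hRc he, hRc hf, hphi, hphi, El_apply, El_apply]
    rfl
  have h2 : inc v1 = Kl hp2 a b A B ha hb e f (inc v1) +
      (1 / 2 : ℂ) • (phi hp2 a A (inc (to1 z hz)) + phi hp2 b B (inc (to1 w hw))) := by
    ext g
    change v1 g = Kl hp2 a b A B ha hb e f (inc v1) g + (1 / 2 : ℂ) *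
      (phi hp2 a A (inc (to1 z hz)) g + phi hp2 b B (inc (to1 w hw)) g)
    rw [hK, hphi, hphi]
    have h3 := congrArg (fun r : LP G 1 => r g) h1
    have h4 : v1 g - K1 v1 g = (1 / 2 : ℂ) * (phi hp1 a A (to1 z hz) g +
      phi hp1 b B (to1 w hw) g) := h3
    rw [← h4]
    ring
  have hvv : v = inc v1 := by
    have h3 : v - inc v1 = Kl hp2 a b A B ha hb e f (v - inc v1) := by
      rw [map_sub]
      conv_lhs => rw [heq, h2]
      abel
    have h4 := Kl_norm (p := 2) hp2 a b A B ha hb he hf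
    have h5 := El_norm2 _ _ ha hb hab
    have h6 : ‖v - inc v1‖ ≤ (5 / 7 + (∑' g, ‖e g‖ + ∑' g, ‖f g‖)) * ‖v - inc v1‖ := by
      conv_lhs => rw [h3]
      exact ContinuousLinearMap.le_of_opNorm_le _ (by linarith) _
    have h7 : ‖v - inc v1‖ = 0 := by
      have h8 := norm_nonneg (v - inc v1)
      nlinarith
    exact sub_eq_zero.1 (norm_eq_zero.1 h7)
  -- augmentation
  have haug := aug_conv hx h0 v1
  have h5 : ∀ g, (Lc hp1 x v1) g = dl 2 (1 : G) g := by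
    intro g
    rw [← hv, hvv, hT, Lc_apply hp1 hx, Lc_apply hp2 hx]
    rfl
  have h6 : ∑' g : G, dl 2 (1 : G) g = 1 :=
    (tsum_eq_single (f := fun g : G => dl 2 (1 : G) g) 1 (fun g hg => dl_ne hg)).trans
      (dl_self 1)
  rw [tsum_congr h5, h6] at haug
  exact one_ne_zero haug

end

end Pool.Agent.R190.Aug
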