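import Mathlib
import Pool.Agent.R190.Aug.D

open scoped ENNReal NNReal InnerProductSpace

namespace Pool.Agent.R190.Aug

section
variable {α : Type*} [DecidableEq α]

theorem toWord_append (h : FreeGroup α) (s : α × Bool)
    (hs : ∀ x ∈ h.toWord.getLast?, x.1 = s.1 → x.2 = s.2) :
    (h * FreeGroup.mk [s]).toWord = h.toWord ++ [s] := by
  have h1 : h * FreeGroup.mk [s] = FreeGroup.mk (h.toWord ++ [s]) := by
    rw [← FreeGroup.mul_mk, FreeGroup.mk_toWord]
  rw [h1, FreeGroup.toWord_mk]
  refine FreeGroup.IsReduced.reduce_eq ?_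
  refine List.IsChain.append FreeGroup.isReduced_toWord (List.isChain_singleton s) ?_
  intro x hx y hy
  simp only [List.head?_cons, Option.mem_def, Option.some.injEq] at hy
  subst hy
  exact hs x hx

/-- The elements whose reduced word ends in `a_i⁻¹`. -/
def endsNeg (i : α) : Set (FreeGroup α) := {h | (i, false) ∈ h.toWord.getLast?}

theorem cmap_toWord (i : α) (h : FreeGroup α) :
    ∃ b, (cmap (FreeGroup.of i) (endsNeg i) h).toWord = h.toWord ++ [(i, b)] := by
  unfold cmap
  by_cases hh : h ∈ endsNeg i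
  · rw [if_pos hh]
    refine ⟨false, ?_⟩
    have h1 : (FreeGroup.of i)⁻¹ = FreeGroup.mk [(i, false)] := rfl
    rw [h1]
    refine toWord_append h (i, false) ?_
    intro x hx _
    have h2 : (i, false) ∈ h.toWord.getLast? := hh
    have h3 := Option.mem_unique hx h2
    rw [h3]
  · rw [if_neg hh]
    refine ⟨true, ?_⟩
    have h1 : FreeGroup.of i = FreeGroup.mk [(i, true)] := rfl
    rw [h1]
    refine toWord_append h (i, true) ?_
    rintro ⟨x1, x2⟩ hx hx1
    by_contra hne
    simp only at hx1 hne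
    have h4 : x2 = false := by simpa using hne
    subst hx1 h4
    exact hh hx

theorem cmap_inj (i : α) : Function.Injective (cmap (FreeGroup.of i) (endsNeg i)) := by
  intro h k hk
  obtain ⟨b, hb⟩ := cmap_toWord i h
  obtain ⟨c, hc⟩ := cmap_toWord i k
  rw [hk, hc] at hb
  have := List.append_inj' hb rfl
  exact FreeGroup.toWord_injective this.1.symm

theorem cmap_disj {i j : α} (hij : i ≠ j) (h k : FreeGroup α) :
    cmap (FreeGroup.of i) (endsNeg i) h ≠ cmap (FreeGroup.of j) (endsNeg j) k := by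
  intro hk
  obtain ⟨b, hb⟩ := cmap_toWord i h
  obtain ⟨c, hc⟩ := cmap_toWord j k
  rw [hk, hc] at hb
  have := (List.append_inj' hb rfl).2
  simp at this
  exact hij this.1.symm

theorem free_main {i j : α} (hij : i ≠ j) {x z w : FreeGroup α → ℂ}
    (hx : Summable fun g => ‖x g‖) (h0 : ∑' g, x g = 0)
    (hz : Summable fun g => ‖z g‖) (hw : Summable fun g => ‖w g‖) :
    2 / 7 ≤ ∑' g, ‖(Pi.single (FreeGroup.of i) 1 - Pi.single 1 1 : FreeGroup α → ℂ) g
        - conv x z g‖ +
      ∑' g, ‖(Pi.single (FreeGroup.of j) 1 - Pi.single 1 1 : FreeGroup α → ℂ) g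
        - conv x w g‖ := by
  have hs : ∀ (c g : FreeGroup α), (Pi.single c 1 : FreeGroup α → ℂ) g = dl 2 c g := by
    intro c g
    by_cases h : g = c
    · subst h; rw [Pi.single_eq_same, dl_self]
    · rw [Pi.single_eq_of_ne h, dl_ne h]
  have hds : ∀ c : FreeGroup α, Summable fun g => ‖(dl 1 c) g‖ := fun c => sum1 (dl 1 c)
  have hd : ∀ c g : FreeGroup α, (dl 1 c) g = (dl 2 c) g := by
    intro c g
    by_cases h : g = c
    · subst h; rw [dl_self, dl_self]
    · rw [dl_ne h, dl_ne h]
  have hsum : ∀ (c : FreeGroup α) (y : FreeGroup α → ℂ), (Summable fun g => ‖y g‖) →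
      Summable fun g => ‖conv x y g - ((dl 2 c) g - (dl 2 (1 : FreeGroup α)) g)‖ := by
    intro c y hy
    refine Summable.of_nonneg_of_le (fun _ => norm_nonneg _) (fun g => ?_)
      ((conv_summable hx hy).add ((hds c).add (hds 1)))
    rw [← hd, ← hd]
    exact (norm_sub_le _ _).trans (add_le_add le_rfl (norm_sub_le _ _))
  have h := main (cmap_inj i) (cmap_inj j) (cmap_disj hij) hx h0 hz hw
    (hsum (FreeGroup.of i) z hz) (hsum (FreeGroup.of j) w hw) (fun g => by ring)
    (fun g => by ring)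
  refine h.trans (le_of_eq ?_)
  congr 1
  · refine tsum_congr fun g => ?_
    rw [Pi.sub_apply, hs, hs, norm_sub_rev]
  · refine tsum_congr fun g => ?_
    rw [Pi.sub_apply, hs, hs, norm_sub_rev]

end

end Pool.Agent.R190.Aug
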