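import Mathlib
import Pool.Agent.Y320.AI.Push
import Pool.Agent.R190.Aug.D
import Pool.Agent.H14R3.Aug.Assembly
import Pool.Agent.H851R3.Aug.TreeAB
import Pool.Agent.H189R3.Aug.Trace
import Pool.Agent.H531R3.Aug.Resolv
import Pool.Agent.H410R3.Aug.InjLim
import Pool.Agent.H265R3.Aug.TaskDim
import Pool.Agent.H14R3.Aug.GradPot
import Pool.Agent.H720R3.Aug.GradOp
import Pool.Agent.H14R3.Aug.TaskRestrSol
import Pool.Agent.H14R3.Aug.TaskExtSol
import Pool.Agent.H360R3.Aug.TaskRestr
import Pool.Agent.H421R3.Aug.FinDim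
import Pool.Agent.H783R3.Aug.Tail
import Pool.Agent.H14R3.Aug.TaskDecay
import Pool.Agent.H14R3.Aug.Bound
import Pool.Agent.Helper923.Aug.Exist

set_option autoImplicit false

open scoped Topology

namespace Pool.Agent.R190.Aug.N

open Pool.Agent.H14R3.Aug in
/-- Bounded nonconstant solutions (from the starting files). -/
theorem bdd : Bdd :=
  bdd_of (globSol_of (TaskDim_proof trace_proof Pool.Agent.H531R3.Aug.resolv_proof InjLim_proof)
    GradPot_proof GradOp_proof) Pool.Agent.Helper923.Aug.Exist_proof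
    (TaskDecay_proof treeB (Pool.Agent.H360R3.Aug.TaskRestr_proof
      (TaskRestrSol_proof treeA treeB) (TaskExtSol_proof treeA treeB))
      Pool.Agent.H421R3.Aug.FinDim_proof Pool.Agent.H783R3.Aug.Tail_proof) Bound_proof

open Pool.Agent.Y320.AI

section
variable {G : Type} [Group G]

/-- A bounded function whose left averages against `b` vanish kills `b * c`. -/
theorem pair_conv {b c ψ : G → ℂ} {C : ℝ} (hb : Summable fun g => ‖b g‖)
    (hc : Summable fun g => ‖c g‖) (hC : ∀ g, ‖ψ g‖ ≤ C)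
    (h0 : ∀ h, ∑' g, b g * ψ (g * h) = 0) : ∑' s, convProd b c s * ψ s = 0 := by
  have hC0 : 0 ≤ C := (norm_nonneg _).trans (hC 1)
  have H1 : Summable fun p : G × G => b p.1 * c p.2 * ψ (p.1 * p.2) := by
    have h1 : Summable fun p : G × G => ‖b p.1‖ * ‖c p.2‖ :=
      hb.mul_of_nonneg hc (fun _ => norm_nonneg _) (fun _ => norm_nonneg _)
    refine Summable.of_norm_bounded (h1.mul_right C) fun p => ?_
    rw [norm_mul, norm_mul]
    exact mul_le_mul_of_nonneg_left (hC _) (by positivity)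
  let e : G × G ≃ G × G :=
    { toFun := fun p => (p.1, p.1⁻¹ * p.2)
      invFun := fun p => (p.1, p.1 * p.2)
      left_inv := fun p => by simp
      right_inv := fun p => by simp }
  have H2 : Summable fun p : G × G => b p.1 * c (p.1⁻¹ * p.2) * ψ p.2 := by
    have h2 := (e.summable_iff (f := fun p : G × G => b p.1 * c p.2 * ψ (p.1 * p.2))).2 H1
    refine h2.congr fun p => ?_
    simp [e]
  have E1 : ∑' s, convProd b c s * ψ s = ∑' s, ∑' g, b g * c (g⁻¹ * s) * ψ s := by
    refine tsum_congr fun s => ?_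
    unfold convProd
    rw [tsum_mul_right]
  rw [E1]
  have H3 : Summable (Function.uncurry fun (s g : G) => b g * c (g⁻¹ * s) * ψ s) := by
    have h3 := (Equiv.prodComm G G).summable_iff.2 H2
    exact h3
  have E2 := (show Summable (Function.uncurry fun (g s : G) => b g * c (g⁻¹ * s) * ψ s) from
    H2).tsum_comm
  rw [E2]
  have E3 : ∀ g : G, ∑' s, b g * c (g⁻¹ * s) * ψ s = ∑' h, b g * c h * ψ (g * h) := by
    intro g
    rw [← (Equiv.mulLeft g).tsum_eq]
    refine tsum_congr fun h => ?_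
    simp
  rw [tsum_congr E3]
  have E4 := (show Summable (Function.uncurry fun (g h : G) => b g * c h * ψ (g * h)) from
    H1).tsum_comm
  rw [← E4]
  have E5 : ∀ h : G, ∑' g, b g * c h * ψ (g * h) = 0 := by
    intro h
    have h5 : ∀ g, b g * c h * ψ (g * h) = c h * (b g * ψ (g * h)) := fun g => by ring
    rw [tsum_congr h5, tsum_mul_left, h0, mul_zero]
  rw [tsum_congr E5, tsum_zero]

variable {Q : Type} [Group Q]

open Classical in
/-- Sums against functions of the image. -/
theorem sum_push (π : G →* Q) {b : G → ℂ} (hb : Summable fun g => ‖b g‖) {κ : Q → ℂ} {C : ℝ}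
    (hC : ∀ y, ‖κ y‖ ≤ C) : ∑' g, b g * κ (π g) = ∑' y, push π b y * κ y := by
  have h1 : Summable fun g => ‖b g * κ (π g)‖ := by
    refine Summable.of_nonneg_of_le (fun _ => norm_nonneg _) (fun g => ?_) (hb.mul_right C)
    rw [norm_mul]
    exact mul_le_mul_of_nonneg_left (hC _) (norm_nonneg _)
  rw [← tsum_push π h1]
  refine tsum_congr fun y => ?_
  unfold push
  rw [← tsum_mul_right]
  refine tsum_congr fun g => ?_
  by_cases h : π g = y
  · subst h; simp
  · rw [if_neg h, if_neg h, zero_mul]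

end

/-- The projection of the free group on countably many generators to the free group of rank `n`. -/
noncomputable def proj (n : ℕ) : FreeGroup ℕ →* FreeGroup (Fin n) :=
  FreeGroup.lift fun k => if h : k < n then FreeGroup.of ⟨k, h⟩ else 1

/-- The null sequence `(δ_{a_k} - δ_e) / (k + 1)`. -/
noncomputable def seq (k : ℕ) (g : FreeGroup ℕ) : ℂ :=
  ((k : ℂ) + 1)⁻¹ * ((if g = FreeGroup.of k then 1 else 0) - (if g = 1 then 1 else 0))

theorem seq_hasSum (k : ℕ) (ψ : FreeGroup ℕ → ℂ) :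
    HasSum (fun g => seq k g * ψ g) (((k : ℂ) + 1)⁻¹ * (ψ (FreeGroup.of k) - ψ 1)) := by
  have h1 := hasSum_ite_eq (FreeGroup.of k) (ψ (FreeGroup.of k))
  have h2 := hasSum_ite_eq (1 : FreeGroup ℕ) (ψ 1)
  have h3 := (h1.sub h2).mul_left ((k : ℂ) + 1)⁻¹
  suffices a0 : ∀ g, seq k g * ψ g = ((k : ℂ) + 1)⁻¹ *
      ((if g = FreeGroup.of k then ψ (FreeGroup.of k) else 0) - (if g = 1 then ψ 1 else 0)) by
    rw [show (fun g => seq k g * ψ g) = _ from funext a0]
    exact h3
  intro g
  have a1 : (if g = FreeGroup.of k then ψ (FreeGroup.of k) else 0) =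
      (if g = FreeGroup.of k then 1 else 0) * ψ g := by
    split_ifs with h
    · rw [h, one_mul]
    · rw [zero_mul]
  have a2 : (if g = 1 then ψ 1 else 0) = (if g = 1 then 1 else 0) * ψ g := by
    split_ifs with h
    · rw [h, one_mul]
    · rw [zero_mul]
  rw [a1, a2]
  unfold seq
  ring

theorem seq_bound (k : ℕ) : (Summable fun g => ‖seq k g‖) ∧
    ∑' g, ‖seq k g‖ ≤ 2 * ((k : ℝ) + 1)⁻¹ := by
  have h1 := hasSum_ite_eq (FreeGroup.of k : FreeGroup ℕ) (1 : ℝ)
  have h2 := hasSum_ite_eq (1 : FreeGroup ℕ) (1 : ℝ)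
  have h3 := (h1.add h2).mul_left ((k : ℝ) + 1)⁻¹
  have hb : ∀ g, ‖seq k g‖ ≤ ((k : ℝ) + 1)⁻¹ * ((if g = FreeGroup.of k then 1 else 0) +
      (if g = 1 then 1 else 0)) := by
    intro g
    unfold seq
    rw [norm_mul]
    have e0 : ‖((k : ℂ) + 1)⁻¹‖ = ((k : ℝ) + 1)⁻¹ := by
      rw [norm_inv]
      congr 1
      have : ((k : ℂ) + 1) = (((k : ℝ) + 1 : ℝ) : ℂ) := by push_cast; ring
      rw [this, Complex.norm_real, Real.norm_of_nonneg (by positivity)]
    rw [e0]
    refine mul_le_mul_of_nonneg_left ?_ (by positivity)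
    refine (norm_sub_le _ _).trans (add_le_add ?_ ?_) <;> split_ifs <;> simp
  have hs : Summable fun g => ‖seq k g‖ :=
    Summable.of_nonneg_of_le (fun _ => norm_nonneg _) hb h3.summable
  refine ⟨hs, (hs.tsum_le_tsum hb h3.summable).trans (le_of_eq ?_)⟩
  rw [h3.tsum_eq]
  ring

theorem key {n m : ℕ} {b : Fin m → FreeGroup ℕ → ℂ}
    (hmn : Nat.card {i // push (proj n) (b i) ≠ 0} < n) (hb : ∀ i, InI0 (b i))
    (hfin : ∀ i, (Function.support (push (proj n) (b i))).Finite) :
    ∃ k, ∃ ε : ℝ, 0 < ε ∧ ∀ c : Fin m → FreeGroup ℕ → ℂ, (∀ i, Summable fun g => ‖c i g‖) →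
      ε ≤ ∑' g, ‖seq k g - ∑ i, convProd (b i) (c i) g‖ := by
  classical
  let S : Finset (FreeGroup (Fin n)) := Finset.univ.biUnion fun j => (hfin j).toFinset
  have hS : ∀ j u, u ∉ S → push (proj n) (b j) u = 0 := by
    intro j u hu
    by_contra h
    apply hu
    rw [Finset.mem_biUnion]
    exact ⟨j, Finset.mem_univ _, (hfin j).mem_toFinset.2 h⟩
  have hsum : ∀ i, ∑ u ∈ S, push (proj n) (b i) u = 0 := fun i => by
    have h := (push_mem (proj n) (hb i)).2
    rw [tsum_eq_sum (s := S) (fun u hu => hS i u hu)] at h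
    exact h
  let e : {i // push (proj n) (b i) ≠ 0} ≃ Fin (Nat.card {i // push (proj n) (b i) ≠ 0}) :=
    Finite.equivFin _
  obtain ⟨φ, C, hC, ⟨g, g', hg⟩, heq0⟩ := bdd n _ hmn
    (fun l => push (proj n) (b (e.symm l).1)) S (fun l => hsum _)
  have heq : ∀ i h, ∑ u ∈ S, push (proj n) (b i) u * φ (u * h) = 0 := by
    intro i h
    by_cases hi : push (proj n) (b i) = 0
    · rw [hi]; simp
    · have h1 := heq0 (e ⟨i, hi⟩) h
      rwa [e.symm_apply_apply] at h1
  -- a place where `φ` changes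
  obtain ⟨j, t, hjt⟩ : ∃ (j : Fin n) (t : FreeGroup (Fin n)), φ (FreeGroup.of j * t) ≠ φ t := by
    by_contra hcon
    push Not at hcon
    have h1 : ∀ x t : FreeGroup (Fin n), φ (x * t) = φ t := by
      intro x
      induction x using FreeGroup.induction_on with
      | C1 => intro t; rw [one_mul]
      | of j => exact hcon j
      | inv_of j _ =>
        intro t
        have := hcon j ((FreeGroup.of j)⁻¹ * t)
        rw [mul_inv_cancel_left] at this
        exact this.symm
      | mul x y hx hy => intro t; rw [mul_assoc, hx, hy]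
    apply hg
    have e1 := h1 g 1
    have e2 := h1 g' 1
    rw [mul_one] at e1 e2
    rw [e1, e2]
  set ψ : FreeGroup ℕ → ℂ := fun s => φ (proj n s * t) with hψ
  have hψC : ∀ s, ‖ψ s‖ ≤ C := fun s => hC _
  have hC0 : 0 < C + 1 := by
    have := (norm_nonneg _).trans (hC 1)
    linarith
  have hkill : ∀ i h, ∑' s, b i s * ψ (s * h) = 0 := by
    intro i h
    have h1 : ∀ s, b i s * ψ (s * h) = b i s * (fun y => φ (y * (proj n h * t))) (proj n s) := by
      intro s
      simp only [hψ, map_mul, mul_assoc]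
    rw [tsum_congr h1, sum_push (proj n) (hb i).1 (κ := fun y => φ (y * (proj n h * t)))
      (fun y => hC _), tsum_eq_sum (s := S) (fun u hu => by rw [hS i u hu, zero_mul])]
    exact heq i _
  have hD : ‖((j : ℕ) : ℂ) + 1‖⁻¹ * ‖φ (FreeGroup.of j * t) - φ t‖ / (C + 1) > 0 := by
    have h1 : (((j : ℕ) : ℂ) + 1) ≠ 0 := by exact_mod_cast Nat.succ_ne_zero (j : ℕ)
    have h2 : 0 < ‖((j : ℕ) : ℂ) + 1‖ := norm_pos_iff.2 h1
    have h3 : 0 < ‖φ (FreeGroup.of j * t) - φ t‖ := norm_pos_iff.2 (sub_ne_zero.2 hjt)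
    positivity
  refine ⟨j, _, hD, fun c hc => ?_⟩
  have hcs : ∀ i, Summable fun g => ‖convProd (b i) (c i) g‖ := by
    intro i
    exact Pool.Agent.R190.Aug.conv_summable (hb i).1 (hc i)
  -- pair with `ψ`
  set r : FreeGroup ℕ → ℂ := fun g => seq j g - ∑ i, convProd (b i) (c i) g with hr
  have hrs : Summable fun g => ‖r g‖ := by
    have hss : Summable fun g => ∑ i, ‖convProd (b i) (c i) g‖ := summable_sum fun i _ => hcs i
    refine Summable.of_nonneg_of_le (fun _ => norm_nonneg _) (fun g => ?_)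
      ((seq_bound j).1.add hss)
    refine (norm_sub_le _ _).trans (add_le_add le_rfl ?_)
    exact norm_sum_le _ _
  have hpair : ∑' g, r g * ψ g = (((j : ℕ) : ℂ) + 1)⁻¹ * (φ (FreeGroup.of j * t) - φ t) := by
    have h1 := seq_hasSum j ψ
    have h2 : ∀ i, Summable fun g => convProd (b i) (c i) g * ψ g := by
      intro i
      refine Summable.of_norm_bounded ((hcs i).mul_right C) fun g => ?_
      rw [norm_mul]
      exact mul_le_mul_of_nonneg_left (hψC _) (norm_nonneg _)
    have h3 : HasSum (fun g => ∑ i, convProd (b i) (c i) g * ψ g) (∑ i : Fin m, (0 : ℂ)) := by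
      refine hasSum_sum fun i _ => ?_
      have := (h2 i).hasSum
      rwa [pair_conv (hb i).1 (hc i) hψC (hkill i)] at this
    have h4 := h1.sub h3
    rw [Finset.sum_const_zero, sub_zero] at h4
    have h5 : ψ (FreeGroup.of (j : ℕ)) = φ (FreeGroup.of j * t) := by
      simp only [hψ, proj, FreeGroup.lift_apply_of, dif_pos j.2]
    have h6 : ψ 1 = φ t := by simp only [hψ, map_one, one_mul]
    rw [h5, h6] at h4
    rw [← h4.tsum_eq]
    refine tsum_congr fun g => ?_
    rw [hr]
    simp only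
    rw [sub_mul, Finset.sum_mul]
  have hle : ‖∑' g, r g * ψ g‖ ≤ (∑' g, ‖r g‖) * (C + 1) := by
    rw [← tsum_mul_right]
    refine tsum_of_norm_bounded (hrs.mul_right _).hasSum fun g => ?_
    rw [norm_mul]
    exact mul_le_mul_of_nonneg_left ((hψC g).trans (by linarith)) (norm_nonneg _)
  rw [hpair, norm_mul, norm_inv] at hle
  rw [div_le_iff₀ hC0]
  exact hle

end Pool.Agent.R190.Aug.N
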