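import Mathlib
import Pool.Agent.R190.Aug.N
import Pool.Agent.R190.Aug.E

set_option autoImplicit false

namespace Pool.Agent.R190.Aug.N

open Pool.Agent.Y320.AI

section
variable {G Q : Type} [Group G] [Group Q]

open Classical in
theorem push_norm (π : G →* Q) {f : G → ℂ} (hf : Summable fun g => ‖f g‖) :
    ∑' y, ‖push π f y‖ ≤ ∑' g, ‖f g‖ := by
  have h1 := summable_push π hf
  have hn : Summable fun g => ‖(fun g => ((‖f g‖ : ℝ) : ℂ)) g‖ := by
    refine hf.congr fun g => ?_
    rw [Complex.norm_real, norm_norm]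
  have h2 := tsum_push π hn
  have h3 : ∀ y, ‖push π f y‖ ≤ (push π (fun g => ((‖f g‖ : ℝ) : ℂ)) y).re := by
    intro y
    refine (norm_push_le π hf y).trans (le_of_eq ?_)
    unfold push
    have e : ∀ g, (if π g = y then ((‖f g‖ : ℝ) : ℂ) else 0) =
        ((‖if π g = y then f g else 0‖ : ℝ) : ℂ) := by
      intro g
      split_ifs <;> simp
    simp_rw [e]
    rw [← Complex.ofReal_tsum, Complex.ofReal_re]
  have h4 := (summable_push π hn).of_norm
  have h5 : Summable fun y => (push π (fun g => ((‖f g‖ : ℝ) : ℂ)) y).re :=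
    (Complex.hasSum_re h4.hasSum).summable
  refine (h1.tsum_le_tsum h3 h5).trans (le_of_eq ?_)
  rw [← Complex.re_tsum h4, h2, ← Complex.ofReal_tsum, Complex.ofReal_re]

open Classical in
theorem push_sub (π : G →* Q) {f g : G → ℂ} (hf : Summable fun s => ‖f s‖)
    (hg : Summable fun s => ‖g s‖) (y : Q) :
    push π (fun s => f s - g s) y = push π f y - push π g y := by
  have h1 : ∀ {f : G → ℂ}, (Summable fun s => ‖f s‖) →
      Summable fun s => if π s = y then f s else 0 := by
    intro f hf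
    refine Summable.of_norm_bounded hf fun s => ?_
    split_ifs
    · exact le_rfl
    · simp
  unfold push
  rw [← (h1 hf).tsum_sub (h1 hg)]
  refine tsum_congr fun s => ?_
  split_ifs <;> simp

open Classical in
theorem push_sum (π : G →* Q) {m : ℕ} {f : Fin m → G → ℂ}
    (hf : ∀ i, Summable fun s => ‖f i s‖) (y : Q) :
    push π (fun s => ∑ i, f i s) y = ∑ i, push π (f i) y := by
  have h1 : ∀ i, Summable fun s => if π s = y then f i s else 0 := by
    intro i
    refine Summable.of_norm_bounded (hf i) fun s => ?_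
    split_ifs
    · exact le_rfl
    · simp
  unfold push
  rw [← Summable.tsum_finsetSum (fun i _ => h1 i)]
  refine tsum_congr fun s => ?_
  split_ifs <;> simp

end

theorem push_seq {n : ℕ} (j : Fin n) (y : FreeGroup (Fin n)) :
    push (proj n) (seq j) y = (((j : ℕ) : ℂ) + 1)⁻¹ *
      (Pi.single (FreeGroup.of j) 1 - Pi.single 1 1 : FreeGroup (Fin n) → ℂ) y := by
  classical
  have h1 := sum_push (proj n) (seq_bound j).1 (κ := fun z => if z = y then (1 : ℂ) else 0)
    (C := 1) (fun z => by split_ifs <;> simp)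
  have h2 := seq_hasSum j (fun g => if proj n g = y then (1 : ℂ) else 0)
  have h3 : ∑' z, push (proj n) (seq j) z * (if z = y then (1 : ℂ) else 0) =
      push (proj n) (seq j) y := by
    rw [tsum_eq_single y]
    · simp
    · intro z hz
      simp [hz]
  rw [← h3, ← h1, h2.tsum_eq]
  congr 1
  have h5 : proj n (FreeGroup.of (j : ℕ)) = FreeGroup.of j := by
    simp only [proj, FreeGroup.lift_apply_of, dif_pos j.2]
  rw [h5, map_one, Pi.sub_apply]
  congr 1
  · by_cases h : y = FreeGroup.of j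
    · subst h; simp
    · rw [if_neg (fun e => h e.symm), Pi.single_eq_of_ne h]
  · by_cases h : y = 1
    · subst h; simp
    · rw [if_neg (fun e => h e.symm), Pi.single_eq_of_ne h]

theorem key2 {n m : ℕ} (hn : 2 ≤ n) {b : Fin m → FreeGroup ℕ → ℂ} (hb : ∀ i, InI0 (b i))
    (hone : ∀ i j, i ≠ j → push (proj n) (b i) = 0 ∨ push (proj n) (b j) = 0) :
    ∃ k, ∃ ε : ℝ, 0 < ε ∧ ∀ c : Fin m → FreeGroup ℕ → ℂ, (∀ i, Summable fun g => ‖c i g‖) →
      ε ≤ ∑' g, ‖seq k g - ∑ i, convProd (b i) (c i) g‖ := by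
  classical
  -- the only nonzero image
  obtain ⟨X, hX, hXb⟩ : ∃ X : FreeGroup (Fin n) → ℂ, InI0 X ∧
      ∀ c : Fin m → FreeGroup ℕ → ℂ, (∀ i, Summable fun g => ‖c i g‖) →
        ∃ z : FreeGroup (Fin n) → ℂ, (Summable fun g => ‖z g‖) ∧
          ∀ y, ∑ i, convProd (push (proj n) (b i)) (push (proj n) (c i)) y = conv X z y := by
    by_cases hz : ∀ i, push (proj n) (b i) = 0
    · refine ⟨fun _ => 0, ⟨by simpa using summable_zero, by simp⟩, fun c hc => ⟨fun _ => 0,
        by simpa using summable_zero, fun y => ?_⟩⟩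
      have h1 : conv (fun _ : FreeGroup (Fin n) => (0 : ℂ)) (fun _ => 0) y = 0 := by simp [conv]
      rw [h1]
      refine Finset.sum_eq_zero fun i _ => ?_
      rw [hz i]
      simp [convProd]
    · push Not at hz
      obtain ⟨i0, hi0⟩ := hz
      refine ⟨push (proj n) (b i0), push_mem (proj n) (hb i0), fun c hc =>
        ⟨push (proj n) (c i0), summable_push _ (hc i0), fun y => ?_⟩⟩
      rw [Finset.sum_eq_single i0]
      · rfl
      · intro i _ hi
        have h1 : push (proj n) (b i) = 0 := by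
          rcases hone i i0 hi with h | h
          · exact h
          · exact absurd h hi0
        rw [h1]
        simp [convProd]
      · intro h
        exact absurd (Finset.mem_univ _) h
  by_contra hcon
  push Not at hcon
  have hj : ∀ j : Fin n, (j : ℕ) ≤ 1 → ∃ z : FreeGroup (Fin n) → ℂ, (Summable fun g => ‖z g‖) ∧
      ∑' y, ‖(Pi.single (FreeGroup.of j) 1 - Pi.single 1 1 : FreeGroup (Fin n) → ℂ) y
        - conv X z y‖ ≤ (((j : ℕ) : ℝ) + 1) * (1 / 14) := by
    intro j _
    obtain ⟨c, hc, hlt⟩ := hcon j (1 / 14) (by norm_num)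
    obtain ⟨z, hz, hzy⟩ := hXb c hc
    have hcs : ∀ i, Summable fun g => ‖convProd (b i) (c i) g‖ := by
      intro i
      exact Pool.Agent.R190.Aug.conv_summable (hb i).1 (hc i)
    have hss0 : Summable fun g => ∑ i, ‖convProd (b i) (c i) g‖ := summable_sum fun i _ => hcs i
    have hss : Summable fun g => ‖∑ i, convProd (b i) (c i) g‖ :=
      Summable.of_nonneg_of_le (fun _ => norm_nonneg _) (fun g => norm_sum_le _ _) hss0
    have hrs : Summable fun g => ‖seq j g - ∑ i, convProd (b i) (c i) g‖ :=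
      Summable.of_nonneg_of_le (fun _ => norm_nonneg _) (fun g => norm_sub_le _ _)
        ((seq_bound j).1.add hss)
    have hp := push_norm (proj n) hrs
    have hpe : ∀ y, push (proj n) (fun g => seq j g - ∑ i, convProd (b i) (c i) g) y =
        (((j : ℕ) : ℂ) + 1)⁻¹ * (Pi.single (FreeGroup.of j) 1 - Pi.single 1 1 :
          FreeGroup (Fin n) → ℂ) y - conv X z y := by
      intro y
      rw [push_sub (proj n) (seq_bound j).1 hss, push_seq, push_sum (proj n) hcs, ← hzy]
      congr 1
      refine Finset.sum_congr rfl fun i _ => ?_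
      rw [push_conv (proj n) (hb i).1 (hc i)]
    simp_rw [hpe] at hp
    have hc0 : (((j : ℕ) : ℂ) + 1) ≠ 0 := by exact_mod_cast Nat.succ_ne_zero (j : ℕ)
    refine ⟨fun y => (((j : ℕ) : ℂ) + 1) * z y, ?_, ?_⟩
    · refine (hz.mul_left ‖((j : ℕ) : ℂ) + 1‖).congr fun y => ?_
      rw [norm_mul]
    · have h1 : ∀ y, ‖(Pi.single (FreeGroup.of j) 1 - Pi.single 1 1 :
          FreeGroup (Fin n) → ℂ) y - conv X (fun y => (((j : ℕ) : ℂ) + 1) * z y) y‖ =
          (((j : ℕ) : ℝ) + 1) * ‖(((j : ℕ) : ℂ) + 1)⁻¹ * (Pi.single (FreeGroup.of j) 1 -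
            Pi.single 1 1 : FreeGroup (Fin n) → ℂ) y - conv X z y‖ := by
        intro y
        have h2 : conv X (fun y => (((j : ℕ) : ℂ) + 1) * z y) y =
            (((j : ℕ) : ℂ) + 1) * conv X z y := by
          unfold conv
          rw [← tsum_mul_left]
          refine tsum_congr fun h => ?_
          ring
        have h3 : ‖(((j : ℕ) : ℂ) + 1)‖ = ((j : ℕ) : ℝ) + 1 := by
          have : (((j : ℕ) : ℂ) + 1) = (((j : ℕ) : ℝ) + 1 : ℝ) := by push_cast; ring
          rw [this, Complex.norm_real, Real.norm_of_nonneg (by positivity)]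
        rw [h2, ← h3, ← norm_mul, mul_sub, mul_inv_cancel_left₀ hc0]
      rw [tsum_congr h1, tsum_mul_left]
      exact mul_le_mul_of_nonneg_left (hp.trans hlt.le) (by positivity)
  obtain ⟨z, hz, hz1⟩ := hj ⟨0, by omega⟩ (by simp)
  obtain ⟨w, hw, hw1⟩ := hj ⟨1, by omega⟩ (by simp)
  have h5 := free_main (i := (⟨0, by omega⟩ : Fin n)) (j := ⟨1, by omega⟩) (by
    intro h6
    simpa using congrArg Fin.val h6) hX.1 hX.2 hz hw
  norm_num at hz1 hw1
  norm_num at h5
  linarith

end Pool.Agent.R190.Aug.N
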